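import Mathlib
import Pool.Agent.Q223.FC.A

/-!
# Chains `x ⊗ e n ≺ y ⊗ e (n + 1)`: exponents in `(0, ∞)`
-/

set_option autoImplicit false

namespace Pool.Agent.Q223.FC

open Finset

theorem conv_of (f f' f'' : ℝ → ℝ) (D : Set ℝ) (hD : D = Set.Icc 0 1 ∨ D = Set.Ioc 0 1)
    (hc : ContinuousOn f D) (h1 : ∀ x ∈ Set.Ioo (0 : ℝ) 1, HasDerivAt f (f' x) x)
    (h2 : ∀ x ∈ Set.Ioo (0 : ℝ) 1, HasDerivAt f' (f'' x) x)
    (h3 : ∀ x ∈ Set.Ioo (0 : ℝ) 1, 0 ≤ f'' x) : ConvexOn ℝ D f := by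
  have hi : interior D = Set.Ioo 0 1 := by
    rcases hD with h | h
    · rw [h, interior_Icc]
    · rw [h, interior_Ioc]
  have hDc : Convex ℝ D := by
    rcases hD with h | h
    · rw [h]; exact convex_Icc _ _
    · rw [h]; exact convex_Ioc _ _
  refine convexOn_of_hasDerivWithinAt2_nonneg hDc (f' := f') (f'' := f'') hc ?_ ?_ ?_
  · intro x hx
    rw [hi] at hx
    exact (h1 x hx).hasDerivWithinAt
  · intro x hx
    rw [hi] at hx
    exact (h2 x hx).hasDerivWithinAt
  · intro x hx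
    rw [hi] at hx
    exact h3 x hx

/-- the auxiliary convex function for an exponent `r ≠ 0, 1` -/
theorem psi_conv (r : ℝ) (k : ℕ) (hk : 2 ≤ k) (hrk : r < k) (hr0 : r ≠ 0) (hr1 : r ≠ 1)
    (D : Set ℝ) (hD : (D = Set.Icc 0 1 ∧ 0 < r) ∨ D = Set.Ioc 0 1) :
    ConvexOn ℝ D (fun t => (k * (k - 1) / (r * (r - 1))) * t ^ r - t ^ k) := by
  set B : ℝ := k * (k - 1) / (r * (r - 1)) with hB
  have hBr : B * (r * (r - 1)) = k * (k - 1) := by
    rw [hB]; field_simp [hr0, sub_ne_zero.2 hr1]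
  have hk2 : (2 : ℝ) ≤ k := by exact_mod_cast hk
  refine conv_of _ (fun t => B * (r * t ^ (r - 1)) - k * t ^ (k - 1))
    (fun t => B * (r * ((r - 1) * t ^ (r - 1 - 1))) - k * (((k - 1 : ℕ) : ℝ) * t ^ (k - 1 - 1)))
    D (hD.imp (fun h => h.1) id) ?_ ?_ ?_ ?_
  · rcases hD with ⟨h, hr⟩ | h
    · exact ((continuous_const.mul (Real.continuous_rpow_const hr.le)).sub
        (continuous_pow k)).continuousOn
    · rw [h]
      apply ContinuousOn.sub
      · apply ContinuousOn.mul continuousOn_const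
        exact ContinuousOn.rpow_const continuousOn_id fun x hx => Or.inl hx.1.ne'
      · exact (continuous_pow k).continuousOn
  · intro t ht
    exact ((Real.hasDerivAt_rpow_const (Or.inl ht.1.ne')).const_mul B).sub (hasDerivAt_pow k t)
  · intro t ht
    exact (((Real.hasDerivAt_rpow_const (Or.inl ht.1.ne')).const_mul r).const_mul B).sub
      ((hasDerivAt_pow (k - 1) t).const_mul (k : ℝ))
  · intro t ht
    have h1 : t ^ (k - 1 - 1) = t ^ ((k : ℝ) - 2) := by
      rw [← Real.rpow_natCast]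
      congr 1
      rw [Nat.cast_sub (by omega), Nat.cast_sub (by omega)]
      push_cast
      ring
    have h2 : t ^ ((k : ℝ) - 2) ≤ t ^ (r - 1 - 1) :=
      Real.rpow_le_rpow_of_exponent_ge ht.1 ht.2.le (by linarith)
    have h3 : ((k - 1 : ℕ) : ℝ) = k - 1 := by
      rw [Nat.cast_sub (by omega)]; simp
    rw [h1, h3]
    have h4 : B * (r * ((r - 1) * t ^ (r - 1 - 1))) - k * ((k - 1) * t ^ ((k : ℝ) - 2)) =
        k * (k - 1) * (t ^ (r - 1 - 1) - t ^ ((k : ℝ) - 2)) := by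
      linear_combination (t ^ (r - 1 - 1)) * hBr
    rw [h4]
    apply mul_nonneg
    · nlinarith
    · linarith

/-- the auxiliary convex function for the entropy -/
theorem psi_conv_one (k : ℕ) (hk : 2 ≤ k) :
    ConvexOn ℝ (Set.Icc 0 1) (fun t => -(k * (k - 1)) * Real.negMulLog t - t ^ k) := by
  set B : ℝ := k * (k - 1) with hB
  have hk2 : (2 : ℝ) ≤ k := by exact_mod_cast hk
  refine conv_of _ (fun t => -B * (-Real.log t - 1) - k * t ^ (k - 1))
    (fun t => -B * (-t⁻¹) - k * (((k - 1 : ℕ) : ℝ) * t ^ (k - 1 - 1)))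
    _ (Or.inl rfl) ?_ ?_ ?_ ?_
  · exact ((continuous_const.mul Real.continuous_negMulLog).sub
      (continuous_pow k)).continuousOn
  · intro t ht
    exact ((Real.hasDerivAt_negMulLog ht.1.ne').const_mul (-B)).sub (hasDerivAt_pow k t)
  · intro t ht
    have h1 : HasDerivAt (fun t => -Real.log t - 1) (-t⁻¹) t :=
      (Real.hasDerivAt_log ht.1.ne').neg.sub_const 1
    exact (h1.const_mul (-B)).sub ((hasDerivAt_pow (k - 1) t).const_mul (k : ℝ))
  · intro t ht
    have h3 : ((k - 1 : ℕ) : ℝ) = k - 1 := by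
      rw [Nat.cast_sub (by omega)]; simp
    rw [h3]
    have h5 : t ^ (k - 1 - 1) ≤ 1 := pow_le_one₀ ht.1.le ht.2.le
    have h6 : 1 ≤ t⁻¹ := (one_le_inv₀ ht.1).2 ht.2.le
    have h4 : -B * (-t⁻¹) - k * ((k - 1) * t ^ (k - 1 - 1)) =
        B * (t⁻¹ - t ^ (k - 1 - 1)) := by
      rw [hB]; ring
    rw [h4]
    apply mul_nonneg
    · rw [hB]; nlinarith
    · linarith

/-- the auxiliary convex function for the logarithm -/
theorem psi_conv_log (k : ℕ) (hk : 2 ≤ k) :
    ConvexOn ℝ (Set.Ioc 0 1) (fun t => -(k * (k - 1)) * Real.log t - t ^ k) := by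
  set B : ℝ := k * (k - 1) with hB
  have hk2 : (2 : ℝ) ≤ k := by exact_mod_cast hk
  refine conv_of _ (fun t => -B * t⁻¹ - k * t ^ (k - 1))
    (fun t => -B * (-(t ^ 2)⁻¹) - k * (((k - 1 : ℕ) : ℝ) * t ^ (k - 1 - 1)))
    _ (Or.inr rfl) ?_ ?_ ?_ ?_
  · apply ContinuousOn.sub
    · apply ContinuousOn.mul continuousOn_const
      exact Real.continuousOn_log.mono fun x hx => hx.1.ne'
    · exact (continuous_pow k).continuousOn
  · intro t ht
    exact ((Real.hasDerivAt_log ht.1.ne').const_mul (-B)).sub (hasDerivAt_pow k t)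
  · intro t ht
    exact ((hasDerivAt_inv ht.1.ne').const_mul (-B)).sub
      ((hasDerivAt_pow (k - 1) t).const_mul (k : ℝ))
  · intro t ht
    have h3 : ((k - 1 : ℕ) : ℝ) = k - 1 := by
      rw [Nat.cast_sub (by omega)]; simp
    rw [h3]
    have h5 : t ^ (k - 1 - 1) ≤ 1 := pow_le_one₀ ht.1.le ht.2.le
    have h6 : 1 ≤ (t ^ 2)⁻¹ := by
      rw [one_le_inv₀ (by have := ht.1; positivity)]
      exact pow_le_one₀ ht.1.le ht.2.le
    have h4 : -B * (-(t ^ 2)⁻¹) - k * ((k - 1) * t ^ (k - 1 - 1)) =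
        B * ((t ^ 2)⁻¹ - t ^ (k - 1 - 1)) := by
      rw [hB]; ring
    rw [h4]
    apply mul_nonneg
    · rw [hB]; nlinarith
    · linarith

/-- telescoping -/
theorem tele (M T : ℕ → ℝ) (X Y c L : ℝ) (hc : 0 < c) (hY : 0 ≤ Y) (hM : ∀ n, c ≤ M n)
    (hT : ∀ n, L ≤ T n) (h : ∀ n, Y * M (n + 1) - X * M n ≤ T n - T (n + 1)) : Y ≤ X := by
  by_contra hXY
  push Not at hXY
  have hU : ∀ n : ℕ, T n + Y * M n ≤ T 0 + Y * M 0 - n * ((Y - X) * c) := by
    intro n
    induction n with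
    | zero => simp
    | succ n ih =>
      have h1 := h n
      have h2 : (Y - X) * c ≤ (Y - X) * M n := mul_le_mul_of_nonneg_left (hM n) (by linarith)
      push_cast
      nlinarith
  have hpos : 0 < (Y - X) * c := mul_pos (by linarith) hc
  obtain ⟨n, hn⟩ := exists_nat_gt ((T 0 + Y * M 0 - L) / ((Y - X) * c))
  rw [div_lt_iff₀ hpos] at hn
  have h1 := hU n
  have h2 := hT n
  have h3 : 0 ≤ Y * M n := mul_nonneg hY (hc.le.trans (hM n))
  linarith

/-- probability vectors -/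
def PV {ι : Type} [Fintype ι] (v : ι → ℝ) : Prop := (∀ i, 0 ≤ v i) ∧ ∑ i, v i = 1

/-- tensor products -/
def tens {ι κ : Type} (v : ι → ℝ) (w : κ → ℝ) : ι × κ → ℝ := fun p => v p.1 * w p.2

variable {ι κ α β : Type} [Fintype ι] [Fintype κ] [Fintype α] [Fintype β]

theorem PV.le_one {v : ι → ℝ} (h : PV v) (i : ι) : v i ≤ 1 := by
  rw [← h.2]
  exact single_le_sum (fun j _ => h.1 j) (mem_univ i)

theorem PV.mem {v : ι → ℝ} (h : PV v) (i : ι) : v i ∈ Set.Icc (0 : ℝ) 1 := ⟨h.1 i, h.le_one i⟩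

theorem sum_tens (v : ι → ℝ) (w : κ → ℝ) (f g h : ℝ → ℝ)
    (H : ∀ i j, f (v i * w j) = g (v i) * h (w j)) :
    ∑ p, f (tens v w p) = (∑ i, g (v i)) * ∑ j, h (w j) := by
  rw [sum_mul_sum, Fintype.sum_prod_type]
  refine sum_congr rfl fun i _ => sum_congr rfl fun j _ => H i j

theorem PV.tens {v : ι → ℝ} {w : κ → ℝ} (hv : PV v) (hw : PV w) : PV (tens v w) := by
  refine ⟨fun p => mul_nonneg (hv.1 _) (hw.1 _), ?_⟩
  have := sum_tens v w (fun t => t) (fun t => t) (fun t => t) (fun _ _ => rfl)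
  rw [this, hv.2, hw.2, one_mul]

theorem sum_tens_pow (v : ι → ℝ) (w : κ → ℝ) (k : ℕ) :
    ∑ p, tens v w p ^ k = (∑ i, v i ^ k) * ∑ j, w j ^ k :=
  sum_tens v w (fun t => t ^ k) (fun t => t ^ k) (fun t => t ^ k) fun _ _ => mul_pow _ _ _

theorem sum_tens_rpow {v : ι → ℝ} {w : κ → ℝ} (hv : PV v) (hw : PV w) (r : ℝ) :
    ∑ p, tens v w p ^ r = (∑ i, v i ^ r) * ∑ j, w j ^ r :=
  sum_tens v w (fun t => t ^ r) (fun t => t ^ r) (fun t => t ^ r)
    fun i j => Real.mul_rpow (hv.1 i) (hw.1 j)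

theorem sum_tens_ent {v : ι → ℝ} {w : κ → ℝ} (hv : PV v) (hw : PV w) :
    ∑ p, Real.negMulLog (tens v w p) =
      ∑ i, Real.negMulLog (v i) + ∑ j, Real.negMulLog (w j) := by
  rw [Fintype.sum_prod_type]
  have : ∀ i, ∑ j, Real.negMulLog (tens v w (i, j)) =
      Real.negMulLog (v i) + v i * ∑ j, Real.negMulLog (w j) := by
    intro i
    have : ∀ j, Real.negMulLog (tens v w (i, j)) =
        Real.negMulLog (v i) * w j + v i * Real.negMulLog (w j) := by
      intro j
      show Real.negMulLog (v i * w j) = _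
      rw [Real.negMulLog_mul]; ring
    rw [sum_congr rfl fun j _ => this j, sum_add_distrib, ← mul_sum, ← mul_sum, hw.2, mul_one]
  rw [sum_congr rfl fun i _ => this i, sum_add_distrib, ← sum_mul, hv.2, one_mul]

theorem PV.exists_pos {v : ι → ℝ} (h : PV v) : ∃ i, 0 < v i := by
  by_contra hc
  push Not at hc
  have : ∑ i, v i ≤ 0 := sum_nonpos fun i _ => hc i
  rw [h.2] at this
  linarith

theorem PV.pow_pos {v : ι → ℝ} (h : PV v) (k : ℕ) : 0 < ∑ i, v i ^ k := by
  obtain ⟨i, hi⟩ := h.exists_pos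
  exact lt_of_lt_of_le (_root_.pow_pos hi k)
    (single_le_sum (f := fun i => v i ^ k) (fun j _ => pow_nonneg (h.1 j) k) (mem_univ i))

theorem PV.rpow_pos {v : ι → ℝ} (h : PV v) (r : ℝ) : 0 < ∑ i, v i ^ r := by
  obtain ⟨i, hi⟩ := h.exists_pos
  exact lt_of_lt_of_le (Real.rpow_pos_of_pos hi r)
    (single_le_sum (f := fun i => v i ^ r) (fun j _ => Real.rpow_nonneg (h.1 j) r) (mem_univ i))

theorem PV.pow_le_one {v : ι → ℝ} (h : PV v) (k : ℕ) (hk : 1 ≤ k) : ∑ i, v i ^ k ≤ 1 := by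
  rw [← h.2]
  exact sum_le_sum fun i _ => pow_le_of_le_one (h.1 i) (h.le_one i) (by omega)

theorem PV.rpow_le_one {v : ι → ℝ} (h : PV v) (r : ℝ) (hr : 1 < r) : ∑ i, v i ^ r ≤ 1 := by
  rw [← h.2]
  refine sum_le_sum fun i _ => ?_
  rcases eq_or_lt_of_le (h.1 i) with h0 | h0
  · rw [← h0, Real.zero_rpow (by linarith)]
  · calc v i ^ r ≤ v i ^ (1 : ℝ) :=
        Real.rpow_le_rpow_of_exponent_ge h0 (h.le_one i) hr.le
      _ = v i := Real.rpow_one _

/-- a lower bound for the power sums from an entry of size `δ` -/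
theorem pow_lower {v : ι → ℝ} (h : PV v) {δ : ℝ} (hδ : 0 < δ) (hi : ∃ i, δ ≤ v i) (k : ℕ) :
    δ ^ k ≤ ∑ i, v i ^ k := by
  obtain ⟨i, hi⟩ := hi
  exact (pow_le_pow_left₀ hδ.le hi k).trans
    (single_le_sum (f := fun i => v i ^ k) (fun j _ => pow_nonneg (h.1 j) k) (mem_univ i))

section chain

variable {x : α → ℝ} {y : β → ℝ} (hx : PV x) (hy : PV y) {γ : ℕ → Type} [∀ n, Fintype (γ n)]
  {e : ∀ n, γ n → ℝ} (he : ∀ n, PV (e n)) (hm : ∀ n, MajP (tens x (e n)) (tens y (e (n + 1))))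

include hx hy he hm

theorem growth (k : ℕ) (hk : 2 ≤ k) : ∑ i, x i ^ k ≤ ∑ i, y i ^ k := by
  by_contra hc
  push Not at hc
  have hstep : ∀ n, (∑ i, x i ^ k) * ∑ i, e n i ^ k ≤ (∑ i, y i ^ k) * ∑ i, e (n + 1) i ^ k := by
    intro n
    have h1 := schur0 (hm n) (hx.tens (he n)).mem (hy.tens (he (n + 1))).mem (fun t => t ^ k)
      ((convexOn_pow k).subset (fun t ht => ht.1) (convex_Icc _ _))
      (zero_pow (by omega))
    rwa [sum_tens_pow, sum_tens_pow] at h1
  set X := ∑ i, x i ^ k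
  set Y := ∑ i, y i ^ k
  have hY : 0 < Y := hy.pow_pos k
  have hq : 1 < X / Y := (one_lt_div hY).2 hc
  have hM : ∀ n, (X / Y) ^ n * ∑ i, e 0 i ^ k ≤ ∑ i, e n i ^ k := by
    intro n
    induction n with
    | zero => simp
    | succ n ih =>
      have h1 := hstep n
      have h2 : X / Y * ∑ i, e n i ^ k ≤ ∑ i, e (n + 1) i ^ k := by
        rw [div_mul_eq_mul_div, div_le_iff₀ hY]
        linarith
      refine le_trans ?_ h2
      rw [pow_succ', mul_assoc]
      exact mul_le_mul_of_nonneg_left ih (by linarith)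
  have h0 := (he 0).pow_pos k
  obtain ⟨n, hn⟩ := pow_unbounded_of_one_lt (1 / ∑ i, e 0 i ^ k) hq
  rw [div_lt_iff₀ h0] at hn
  have h1 := hM n
  have h2 := (he n).pow_le_one k (by omega)
  linarith

/-- exponents `r > 1` -/
theorem core1 (r : ℝ) (hr : 1 < r) (h : ∑ i, y i ^ r ≤ ∑ i, x i ^ r) (k : ℕ) (hk : 2 ≤ k)
    (hrk : r < k) : ∑ i, y i ^ k ≤ ∑ i, x i ^ k := by
  set X := ∑ i, x i ^ r
  set Y := ∑ i, y i ^ r
  have hX : 0 < X := hx.rpow_pos r
  have hY : 0 < Y := hy.rpow_pos r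
  set B : ℝ := k * (k - 1) / (r * (r - 1)) with hB
  have hk2 : (2 : ℝ) ≤ k := by exact_mod_cast hk
  have hB0 : 0 ≤ B := div_nonneg (by nlinarith) (by nlinarith)
  have hmono : ∀ n, ∑ i, e 0 i ^ r ≤ ∑ i, e n i ^ r := by
    intro n
    induction n with
    | zero => exact le_rfl
    | succ n ih =>
      refine ih.trans ?_
      have h1 := schur0 (hm n) (hx.tens (he n)).mem (hy.tens (he (n + 1))).mem (fun t => t ^ r)
        ((convexOn_rpow hr.le).subset (fun t ht => ht.1) (convex_Icc _ _))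
        (Real.zero_rpow (by linarith))
      rw [sum_tens_rpow hx (he n), sum_tens_rpow hy (he (n + 1))] at h1
      have h3 : Y * ∑ i, e (n + 1) i ^ r ≤ X * ∑ i, e (n + 1) i ^ r :=
        mul_le_mul_of_nonneg_right h ((he (n + 1)).rpow_pos r).le
      have h4 : X * ∑ i, e n i ^ r ≤ X * ∑ i, e (n + 1) i ^ r := h1.trans h3
      exact le_of_mul_le_mul_left h4 hX
  set m0 := ∑ i, e 0 i ^ r with hm0
  have hm0p : 0 < m0 := (he 0).rpow_pos r
  -- a large entry
  have hbig : ∀ n, ∃ i, m0 ^ (r - 1)⁻¹ ≤ e n i := by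
    intro n
    by_contra hc
    push Not at hc
    have h1 : ∑ i, e n i ^ r < m0 := by
      have h2 : ∀ i, e n i ^ r ≤ m0 * e n i := by
        intro i
        rcases eq_or_lt_of_le ((he n).1 i) with h0 | h0
        · rw [← h0, Real.zero_rpow (by linarith), mul_zero]
        · have h3 : e n i ^ r = e n i ^ (r - 1) * e n i := by
            rw [← Real.rpow_add_one h0.ne', sub_add_cancel]
          rw [h3]
          apply mul_le_mul_of_nonneg_right _ h0.le
          have h4 := Real.rpow_le_rpow h0.le (hc i).le (by linarith : (0 : ℝ) ≤ r - 1)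
          rwa [← Real.rpow_mul hm0p.le, inv_mul_cancel₀ (by linarith), Real.rpow_one] at h4
      obtain ⟨i, hi⟩ := (he n).exists_pos
      have h5 : e n i ^ r < m0 * e n i := by
        have h3 : e n i ^ r = e n i ^ (r - 1) * e n i := by
          rw [← Real.rpow_add_one hi.ne', sub_add_cancel]
        rw [h3]
        apply mul_lt_mul_of_pos_right _ hi
        have h4 := Real.rpow_lt_rpow hi.le (hc i) (by linarith : (0 : ℝ) < r - 1)
        rwa [← Real.rpow_mul hm0p.le, inv_mul_cancel₀ (by linarith), Real.rpow_one] at h4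
      calc ∑ i, e n i ^ r < ∑ i, m0 * e n i :=
            sum_lt_sum (fun i _ => h2 i) ⟨i, mem_univ i, h5⟩
        _ = m0 := by rw [← mul_sum, (he n).2, mul_one]
    have := hmono n
    linarith
  have hδ : 0 < m0 ^ (r - 1)⁻¹ := Real.rpow_pos_of_pos hm0p _
  refine tele (fun n => ∑ i, e n i ^ k) (fun n => -(B * X * ∑ i, e n i ^ r)) _ _
    ((m0 ^ (r - 1)⁻¹) ^ k) (-(B * X)) (_root_.pow_pos hδ k) (hy.pow_pos k).le
    (fun n => pow_lower (he n) hδ (hbig n) k) ?_ ?_
  · intro n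
    try dsimp only
    have h1 := (he n).rpow_le_one r hr
    have h2 : B * X * ∑ i, e n i ^ r ≤ B * X * 1 :=
      mul_le_mul_of_nonneg_left h1 (mul_nonneg hB0 hX.le)
    linarith
  · intro n
    try dsimp only
    have h1 := schur0 (hm n) (hx.tens (he n)).mem (hy.tens (he (n + 1))).mem _
      (psi_conv r k hk hrk (by linarith) (by linarith) _ (Or.inl ⟨rfl, by linarith⟩))
      (by rw [Real.zero_rpow (by linarith), zero_pow (by omega)]; ring)
    simp only [sum_sub_distrib, ← mul_sum] at h1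
    rw [sum_tens_rpow hx (he n), sum_tens_rpow hy (he (n + 1)), sum_tens_pow, sum_tens_pow] at h1
    have h3 : B * (Y * ∑ i, e (n + 1) i ^ r) ≤ B * (X * ∑ i, e (n + 1) i ^ r) :=
      mul_le_mul_of_nonneg_left
        (mul_le_mul_of_nonneg_right h ((he (n + 1)).rpow_pos r).le) hB0
    nlinarith

/-- exponents `0 < r < 1` -/
theorem core2 (r : ℝ) (hr0 : 0 < r) (hr : r < 1) (h : ∑ i, x i ^ r ≤ ∑ i, y i ^ r) (k : ℕ)
    (hk : 2 ≤ k) : ∑ i, y i ^ k ≤ ∑ i, x i ^ k := by
  set X := ∑ i, x i ^ r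
  set Y := ∑ i, y i ^ r
  have hX : 0 < X := hx.rpow_pos r
  have hY : 0 < Y := hy.rpow_pos r
  have hk2 : (2 : ℝ) ≤ k := by exact_mod_cast hk
  have hrk : r < k := by linarith
  set B : ℝ := k * (k - 1) / (r * (r - 1)) with hB
  have hB0 : B ≤ 0 := div_nonpos_of_nonneg_of_nonpos (by nlinarith) (by nlinarith)
  have hmono : ∀ n, ∑ i, e n i ^ r ≤ ∑ i, e 0 i ^ r := by
    intro n
    induction n with
    | zero => exact le_rfl
    | succ n ih =>
      refine le_trans ?_ ih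
      have h1 := schur0 (hm n) (hx.tens (he n)).mem (hy.tens (he (n + 1))).mem (fun t => -t ^ r)
        ((Real.concaveOn_rpow hr0.le hr.le).neg.subset (fun t ht => ht.1) (convex_Icc _ _))
        (by rw [Real.zero_rpow (by linarith), neg_zero])
      rw [sum_neg_distrib, sum_neg_distrib, sum_tens_rpow hx (he n),
        sum_tens_rpow hy (he (n + 1))] at h1
      have h3 : X * ∑ i, e (n + 1) i ^ r ≤ Y * ∑ i, e (n + 1) i ^ r :=
        mul_le_mul_of_nonneg_right h ((he (n + 1)).rpow_pos r).le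
      have h4 : X * ∑ i, e (n + 1) i ^ r ≤ X * ∑ i, e n i ^ r := by linarith
      exact le_of_mul_le_mul_left h4 hX
  set m0 := ∑ i, e 0 i ^ r with hm0
  have hm0p : 0 < m0 := (he 0).rpow_pos r
  have hbig : ∀ n, ∃ i, m0 ^ (r - 1)⁻¹ ≤ e n i := by
    intro n
    by_contra hc
    push Not at hc
    obtain ⟨i, hi⟩ := (he n).exists_pos
    have hlt : ∀ i, 0 < e n i → m0 * e n i < e n i ^ r := by
      intro i hi
      have h3 : e n i ^ r = e n i ^ (r - 1) * e n i := by
        rw [← Real.rpow_add_one hi.ne', sub_add_cancel]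
      rw [h3]
      apply mul_lt_mul_of_pos_right _ hi
      have h4 := Real.rpow_lt_rpow_of_neg hi (hc i) (by linarith : r - 1 < 0)
      rwa [← Real.rpow_mul hm0p.le, inv_mul_cancel₀ (by linarith), Real.rpow_one] at h4
    have h1 : m0 < ∑ i, e n i ^ r := by
      have h2 : ∀ i, m0 * e n i ≤ e n i ^ r := by
        intro i
        rcases eq_or_lt_of_le ((he n).1 i) with h0 | h0
        · rw [← h0, Real.zero_rpow (by linarith), mul_zero]
        · exact (hlt i h0).le
      calc m0 = ∑ i, m0 * e n i := by rw [← mul_sum, (he n).2, mul_one]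
        _ < ∑ i, e n i ^ r := sum_lt_sum (fun i _ => h2 i) ⟨i, mem_univ i, hlt i hi⟩
    have := hmono n
    linarith
  have hδ : 0 < m0 ^ (r - 1)⁻¹ := Real.rpow_pos_of_pos hm0p _
  refine tele (fun n => ∑ i, e n i ^ k) (fun n => -(B * X * ∑ i, e n i ^ r)) _ _
    ((m0 ^ (r - 1)⁻¹) ^ k) 0 (_root_.pow_pos hδ k) (hy.pow_pos k).le
    (fun n => pow_lower (he n) hδ (hbig n) k) ?_ ?_
  · intro n
    try dsimp only
    have h1 := (he n).rpow_pos r
    have h2 : B * X * ∑ i, e n i ^ r ≤ 0 :=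
      mul_nonpos_of_nonpos_of_nonneg (mul_nonpos_of_nonpos_of_nonneg hB0 hX.le) h1.le
    linarith
  · intro n
    try dsimp only
    have h1 := schur0 (hm n) (hx.tens (he n)).mem (hy.tens (he (n + 1))).mem _
      (psi_conv r k hk hrk (by linarith) (by linarith) _ (Or.inl ⟨rfl, by linarith⟩))
      (by rw [Real.zero_rpow (by linarith), zero_pow (by omega)]; ring)
    simp only [sum_sub_distrib, ← mul_sum] at h1
    rw [sum_tens_rpow hx (he n), sum_tens_rpow hy (he (n + 1)), sum_tens_pow, sum_tens_pow] at h1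
    have h3 : B * (Y * ∑ i, e (n + 1) i ^ r) ≤ B * (X * ∑ i, e (n + 1) i ^ r) :=
      mul_le_mul_of_nonpos_left
        (mul_le_mul_of_nonneg_right h ((he (n + 1)).rpow_pos r).le) hB0
    nlinarith

/-- the Shannon entropy -/
theorem core3 (h : ∑ i, Real.negMulLog (x i) ≤ ∑ i, Real.negMulLog (y i)) (k : ℕ)
    (hk : 2 ≤ k) : ∑ i, y i ^ k ≤ ∑ i, x i ^ k := by
  set X := ∑ i, Real.negMulLog (x i)
  set Y := ∑ i, Real.negMulLog (y i)
  have hk2 : (2 : ℝ) ≤ k := by exact_mod_cast hk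
  set B : ℝ := k * (k - 1) with hB
  have hB0 : 0 ≤ B := by rw [hB]; nlinarith
  have hH0 : ∀ n, 0 ≤ ∑ i, Real.negMulLog (e n i) := fun n =>
    sum_nonneg fun i _ => Real.negMulLog_nonneg ((he n).1 i) ((he n).le_one i)
  have hmono : ∀ n, ∑ i, Real.negMulLog (e n i) ≤ ∑ i, Real.negMulLog (e 0 i) := by
    intro n
    induction n with
    | zero => exact le_rfl
    | succ n ih =>
      refine le_trans ?_ ih
      have h1 := schur0 (hm n) (hx.tens (he n)).mem (hy.tens (he (n + 1))).mem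
        (fun t => -Real.negMulLog t)
        (Real.concaveOn_negMulLog.neg.subset (fun t ht => ht.1) (convex_Icc _ _))
        (by simp)
      rw [sum_neg_distrib, sum_neg_distrib, sum_tens_ent hx (he n),
        sum_tens_ent hy (he (n + 1))] at h1
      linarith
  set m0 := ∑ i, Real.negMulLog (e 0 i) with hm0
  have hbig : ∀ n, ∃ i, Real.exp (-m0) ≤ e n i := by
    intro n
    by_contra hc
    push Not at hc
    obtain ⟨i, hi⟩ := (he n).exists_pos
    have hlt : ∀ i, 0 < e n i → m0 * e n i < Real.negMulLog (e n i) := by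
      intro i hi
      have h4 : Real.log (e n i) < -m0 := by
        rw [Real.log_lt_iff_lt_exp hi]
        exact hc i
      rw [Real.negMulLog]
      nlinarith
    have h1 : m0 < ∑ i, Real.negMulLog (e n i) := by
      have h2 : ∀ i, m0 * e n i ≤ Real.negMulLog (e n i) := by
        intro i
        rcases eq_or_lt_of_le ((he n).1 i) with h0 | h0
        · rw [← h0]; simp
        · exact (hlt i h0).le
      calc m0 = ∑ i, m0 * e n i := by rw [← mul_sum, (he n).2, mul_one]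
        _ < ∑ i, Real.negMulLog (e n i) :=
          sum_lt_sum (fun i _ => h2 i) ⟨i, mem_univ i, hlt i hi⟩
    have := hmono n
    linarith
  have hδ : 0 < Real.exp (-m0) := Real.exp_pos _
  refine tele (fun n => ∑ i, e n i ^ k) (fun n => B * ∑ i, Real.negMulLog (e n i)) _ _
    ((Real.exp (-m0)) ^ k) 0 (_root_.pow_pos hδ k) (hy.pow_pos k).le
    (fun n => pow_lower (he n) hδ (hbig n) k) (fun n => mul_nonneg hB0 (hH0 n)) ?_
  · intro n
    try dsimp only
    have h1 := schur0 (hm n) (hx.tens (he n)).mem (hy.tens (he (n + 1))).mem _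
      (psi_conv_one k hk) (by simp [show k ≠ 0 by omega])
    simp only [sum_sub_distrib, ← mul_sum] at h1
    rw [sum_tens_ent hx (he n), sum_tens_ent hy (he (n + 1)), sum_tens_pow, sum_tens_pow] at h1
    have h3 : B * X ≤ B * Y := mul_le_mul_of_nonneg_left h hB0
    nlinarith

end chain

end Pool.Agent.Q223.FC
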