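import Mathlib
import Pool.Agent.Q223.FC.C

/-!
# Equal ranks: a chain of constant rank with entries bounded below
-/

set_option autoImplicit false

namespace Pool.Agent.Q223.FC

open Finset Filter Topology

variable {ι κ α β : Type} [Fintype ι] [Fintype κ] [Fintype α] [Fintype β]

/-- the nonzero entries in a list of length `D` -/
theorem reindex (v : ι → ℝ) (D : ℕ) (hD : rk v ≤ D) : ∃ g : Fin D → ℝ,
    ∀ F : ℝ → ℝ, F 0 = 0 → ∑ k, F (g k) = ∑ i, F (v i) := by
  classical
  have hcard : Fintype.card {i // v i ≠ 0} ≤ Fintype.card (Fin D) := by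
    rw [Fintype.card_fin, Fintype.card_subtype]
    exact hD
  obtain ⟨f⟩ := Function.Embedding.nonempty_of_card_le hcard
  refine ⟨Function.extend f (fun i => v i) (fun _ => 0), fun F hF => ?_⟩
  have h1 : ∑ i : {i // v i ≠ 0}, F (v i) = ∑ i, F (v i) := by
    have h2 : ∑ i ∈ univ.filter (fun i => v i ≠ 0), F (v i) = ∑ i, F (v i) := by
      rw [sum_filter]
      refine sum_congr rfl fun i _ => ?_
      split_ifs with h
      · rfl
      · push Not at h
        rw [h, hF]
    rw [← h2]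
    exact (sum_subtype (univ.filter (fun i => v i ≠ 0)) (by simp) (fun i => F (v i))).symm
  rw [← h1]
  symm
  apply Fintype.sum_of_injective f f.injective
  · intro k hk
    rw [Function.extend_apply' _ _ _ (fun ⟨a, ha⟩ => hk ⟨a, ha⟩), hF]
  · intro i
    rw [f.injective.extend_apply]

theorem PV_of_sums {v : ι → ℝ} {g : κ → ℝ} (hv : PV v)
    (h : ∀ F : ℝ → ℝ, F 0 = 0 → ∑ k, F (g k) = ∑ i, F (v i)) : PV g := by
  constructor
  · by_contra hc
    push Not at hc
    obtain ⟨k, hk⟩ := hc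
    have h1 := h (fun t => max (-t) 0) (by simp)
    have h2 : ∑ i, max (-v i) 0 = 0 :=
      sum_eq_zero fun i _ => max_eq_right (by have := hv.1 i; linarith)
    rw [h2] at h1
    have h3 : max (-g k) 0 ≤ ∑ k, max (-g k) 0 :=
      single_le_sum (f := fun k => max (-g k) 0) (fun j _ => le_max_right _ _) (mem_univ k)
    rw [h1] at h3
    have h4 : -g k ≤ max (-g k) 0 := le_max_left _ _
    linarith
  · rw [← hv.2]
    exact h (fun t => t) rfl

theorem cont_tens (x : α → ℝ) (D : ℕ) (s : ℝ) :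
    Continuous (fun g : Fin D → ℝ => ∑ p, max (tens x g p - s) 0) := by
  apply continuous_finset_sum
  intro p _
  unfold tens
  fun_prop

theorem MajP_reindex {x : α → ℝ} {y : β → ℝ} {v : ι → ℝ} {w : κ → ℝ}
    (h : MajP (tens x v) (tens y w)) {ι' κ' : Type} [Fintype ι'] [Fintype κ'] {g : ι' → ℝ}
    {g' : κ' → ℝ} (hg : ∀ F : ℝ → ℝ, F 0 = 0 → ∑ k, F (g k) = ∑ i, F (v i))
    (hg' : ∀ F : ℝ → ℝ, F 0 = 0 → ∑ k, F (g' k) = ∑ i, F (w i)) :
    MajP (tens x g) (tens y g') := by
  constructor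
  · intro s hs
    have h1 := h.1 s hs
    rw [Fintype.sum_prod_type, Fintype.sum_prod_type] at h1 ⊢
    have e1 : ∀ a, ∑ k, max (tens x g (a, k) - s) 0 = ∑ i, max (tens x v (a, i) - s) 0 := by
      intro a
      exact hg (fun t => max (x a * t - s) 0) (by simp [hs])
    have e2 : ∀ a, ∑ k, max (tens y g' (a, k) - s) 0 = ∑ i, max (tens y w (a, i) - s) 0 := by
      intro a
      exact hg' (fun t => max (y a * t - s) 0) (by simp [hs])
    rw [sum_congr rfl fun a _ => e1 a, sum_congr rfl fun a _ => e2 a]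
    exact h1
  · have h1 := h.2
    rw [Fintype.sum_prod_type, Fintype.sum_prod_type] at h1 ⊢
    have e1 : ∀ a, ∑ k, tens x g (a, k) = ∑ i, tens x v (a, i) := by
      intro a
      exact hg (fun t => x a * t) (by simp)
    have e2 : ∀ a, ∑ k, tens y g' (a, k) = ∑ i, tens y w (a, i) := by
      intro a
      exact hg' (fun t => y a * t) (by simp)
    rw [sum_congr rfl fun a _ => e1 a, sum_congr rfl fun a _ => e2 a]
    exact h1

/-- the product of the nonzero entries bounds each of them from below -/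
theorem esymm_le {D K : ℕ} {g : Fin D → ℝ} (hg : PV g) (hK : rk g = K) (i : Fin D)
    (hi : g i ≠ 0) : ∑ U ∈ (univ : Finset (Fin D)).powersetCard K, ∏ j ∈ U, g j ≤ g i := by
  classical
  set A := univ.filter (fun i => g i ≠ 0) with hA
  have hAK : A.card = K := hK
  have hAm : A ∈ (univ : Finset (Fin D)).powersetCard K :=
    mem_powersetCard.2 ⟨subset_univ _, hAK⟩
  have h0 : ∀ U ∈ (univ : Finset (Fin D)).powersetCard K, U ≠ A → ∏ j ∈ U, g j = 0 := by
    intro U hU hne
    have hUK := (mem_powersetCard.1 hU).2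
    have : ∃ j ∈ U, j ∉ A := by
      by_contra hc
      push Not at hc
      exact hne (eq_of_subset_of_card_le hc (by rw [hUK, hAK]))
    obtain ⟨j, hj, hjA⟩ := this
    apply prod_eq_zero hj
    by_contra h
    exact hjA (mem_filter.2 ⟨mem_univ _, h⟩)
  rw [sum_eq_single_of_mem A hAm h0]
  have hiA : i ∈ A := mem_filter.2 ⟨mem_univ _, hi⟩
  rw [← mul_prod_erase A g hiA]
  calc g i * ∏ j ∈ A.erase i, g j ≤ g i * 1 := by
        apply mul_le_mul_of_nonneg_left _ (hg.1 i)
        exact prod_le_one (fun j _ => hg.1 j) (fun j _ => hg.le_one j)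
    _ = g i := mul_one _

theorem esymm_pos {D K : ℕ} {g : Fin D → ℝ} (hg : PV g) (hK : K ≤ rk g) :
    0 < ∑ U ∈ (univ : Finset (Fin D)).powersetCard K, ∏ j ∈ U, g j := by
  classical
  obtain ⟨U, hU, hUK⟩ := exists_subset_card_eq hK
  have hUm : U ∈ (univ : Finset (Fin D)).powersetCard K :=
    mem_powersetCard.2 ⟨subset_univ _, hUK⟩
  refine lt_of_lt_of_le ?_ (single_le_sum (f := fun U => ∏ j ∈ U, g j)
    (fun V _ => prod_nonneg fun j _ => hg.1 j) hUm)
  exact prod_pos fun j hj => lt_of_le_of_ne (hg.1 j) (mem_filter.1 (hU hj)).2.symm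

theorem const_chain {x : α → ℝ} {y : β → ℝ} (hx : PV x) (hy : PV y) (hrk : rk x = rk y)
    {γ : ℕ → Type} [∀ n, Fintype (γ n)] {e : ∀ n, γ n → ℝ} (he : ∀ n, PV (e n))
    (hm : ∀ n, MajP (tens x (e n)) (tens y (e (n + 1)))) :
    ∃ (K D : ℕ) (c : ℝ) (g : ℕ → (Fin D → ℝ)), 0 < c ∧ (∀ n, PV (g n)) ∧
      (∀ n, MajP (tens x (g n)) (tens y (g (n + 1)))) ∧ (∀ n, rk (g n) = K) ∧
      (∀ n i, g n i ≠ 0 → c ≤ g n i) := by
  classical
  have hrkmono : ∀ {a b : Type} [Fintype a] [Fintype b] {v : a → ℝ} {w : b → ℝ}, PV v → PV w →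
      MajP (tens x v) (tens y w) → rk w ≤ rk v := by
    intro a b _ _ v w hv hw h
    have h1 := rk_le (hx.tens hv) (hy.tens hw) h
    rw [rk_tens, rk_tens, hrk] at h1
    exact Nat.le_of_mul_le_mul_left h1 (rk_pos hy)
  set D := rk (e 0) with hD
  have hDn : ∀ n, rk (e n) ≤ D := by
    intro n
    induction n with
    | zero => exact le_rfl
    | succ n ih => exact (hrkmono (he n) (he (n + 1)) (hm n)).trans ih
  choose u hu using fun n => reindex (e n) D (hDn n)
  have huPV : ∀ n, PV (u n) := fun n => PV_of_sums (he n) (hu n)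
  have hum : ∀ n, MajP (tens x (u n)) (tens y (u (n + 1))) := fun n =>
    MajP_reindex (hm n) (hu n) (hu (n + 1))
  set C : Set (Fin D → ℝ) := closure (Set.range u) with hC
  have hCPV : ∀ g ∈ C, PV g := by
    have hcl : IsClosed {g : Fin D → ℝ | PV g} := by
      have : {g : Fin D → ℝ | PV g} = {g | ∀ i, 0 ≤ g i} ∩ {g | ∑ i, g i = 1} := rfl
      rw [this]
      apply IsClosed.inter
      · simp only [Set.setOf_forall]
        exact isClosed_iInter fun i => isClosed_le continuous_const (continuous_apply i)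
      · exact isClosed_eq (by fun_prop) continuous_const
    intro g hg
    exact closure_minimal (by rintro _ ⟨n, rfl⟩; exact huPV n) hcl hg
  have hCc : IsCompact C := by
    apply IsCompact.of_isClosed_subset (isCompact_univ_pi fun _ : Fin D =>
      (isCompact_Icc : IsCompact (Set.Icc (0 : ℝ) 1))) isClosed_closure
    intro g hg i _
    exact (hCPV g hg).mem i
  have hstep : ∀ g ∈ C, ∃ g' ∈ C, MajP (tens x g) (tens y g') := by
    intro g hg
    obtain ⟨w, hw, hlim⟩ := mem_closure_iff_seq_limit.1 hg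
    choose m hm' using hw
    obtain ⟨g', hg', φ, hφ, hlim'⟩ := hCc.tendsto_subseq
      (x := fun n => u (m n + 1)) (fun n => subset_closure ⟨_, rfl⟩)
    refine ⟨g', hg', fun s hs => ?_, ?_⟩
    · have t1 : Tendsto (fun n => ∑ p, max (tens x (w (φ n)) p - s) 0) atTop
          (𝓝 (∑ p, max (tens x g p - s) 0)) :=
        ((cont_tens x D s).tendsto g).comp (hlim.comp hφ.tendsto_atTop)
      have t2 : Tendsto (fun n => ∑ p, max (tens y (u (m (φ n) + 1)) p - s) 0) atTop
          (𝓝 (∑ p, max (tens y g' p - s) 0)) :=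
        ((cont_tens y D s).tendsto g').comp hlim'
      refine le_of_tendsto_of_tendsto' t1 t2 fun n => ?_
      rw [← hm' (φ n)]
      exact (hum (m (φ n))).1 s hs
    · rw [(hx.tens (hCPV g hg)).2, (hy.tens (hCPV g' hg')).2]
  have hCne : (rk '' C).Nonempty := ⟨_, u 0, subset_closure ⟨0, rfl⟩, rfl⟩
  set K := sInf (rk '' C) with hK
  obtain ⟨g0, hg0, hg0K⟩ := Nat.sInf_mem hCne
  have hmin : ∀ g ∈ C, K ≤ rk g := fun g hg => Nat.sInf_le ⟨g, hg, rfl⟩
  -- the lower bound
  obtain ⟨gm, hgm, hgmin⟩ := hCc.exists_isMinOn ⟨g0, hg0⟩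
    (f := fun g : Fin D → ℝ => ∑ U ∈ (univ : Finset (Fin D)).powersetCard K, ∏ j ∈ U, g j)
    (by fun_prop)
  set c := ∑ U ∈ (univ : Finset (Fin D)).powersetCard K, ∏ j ∈ U, gm j with hc
  have hc0 : 0 < c := esymm_pos (hCPV gm hgm) (hmin gm hgm)
  choose! nx hnx hnxm using hstep
  set h : ℕ → (Fin D → ℝ) := fun n => nx^[n] g0 with hh
  have hmem : ∀ n, h n ∈ C := by
    intro n
    induction n with
    | zero => exact hg0
    | succ n ih =>
      rw [hh]
      simp only [Function.iterate_succ_apply']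
      exact hnx _ ih
  have hchain : ∀ n, MajP (tens x (h n)) (tens y (h (n + 1))) := by
    intro n
    have : h (n + 1) = nx (h n) := by
      rw [hh]; simp only [Function.iterate_succ_apply']
    rw [this]
    exact hnxm _ (hmem n)
  have hrkc : ∀ n, rk (h n) = K := by
    intro n
    induction n with
    | zero => exact hg0K
    | succ n ih =>
      have h1 := hrkmono (hCPV _ (hmem n)) (hCPV _ (hmem (n + 1))) (hchain n)
      rw [ih] at h1
      exact le_antisymm h1 (hmin _ (hmem (n + 1)))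
  refine ⟨K, D, c, h, hc0, fun n => hCPV _ (hmem n), hchain, hrkc, fun n i hi => ?_⟩
  have h1 : c ≤ ∑ U ∈ (univ : Finset (Fin D)).powersetCard K, ∏ j ∈ U, h n j :=
    hgmin (hmem n)
  exact h1.trans (esymm_le (hCPV _ (hmem n)) (hrkc n) i hi)

end Pool.Agent.Q223.FC
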