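import Mathlib
import Pool.Agent.Q223.FC.G2

/-!
# Binomial smoothing: the conclusion
-/

set_option autoImplicit false

namespace Pool.Agent.Q223.FC

open Finset MeasureTheory

theorem binom_conv (G : ℝ → ℝ) (a b h : ℝ) (d N : ℕ) (hh : 0 < h) (hdh : (d : ℝ) * h = b - a)
    (hG0 : ∀ u, u ≤ a ∨ b ≤ u → G u = 0) (k : ℕ) (u0 : ℝ) (hu0 : u0 ∈ Set.Icc a (a + h)) :
    ∑ i ∈ range (N + 1), (N.choose i : ℝ) * G (u0 + k * h - i * h) =
      ∑ j ∈ range (d + 1), bw N k j * G (u0 + j * h) := by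
  have h1 : ∑ i ∈ range (N + 1), (N.choose i : ℝ) * G (u0 + k * h - i * h) =
      ∑ i ∈ range (k + 1), (N.choose i : ℝ) * G (u0 + k * h - i * h) := by
    have e1 : ∑ i ∈ range (N + 1), (N.choose i : ℝ) * G (u0 + k * h - i * h) =
        ∑ i ∈ range (max (N + 1) (k + 1)), (N.choose i : ℝ) * G (u0 + k * h - i * h) := by
      apply sum_subset (range_mono (le_max_left _ _))
      intro i _ hi
      rw [mem_range, not_lt] at hi
      rw [Nat.choose_eq_zero_of_lt (by omega), Nat.cast_zero, zero_mul]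
    have e2 : ∑ i ∈ range (k + 1), (N.choose i : ℝ) * G (u0 + k * h - i * h) =
        ∑ i ∈ range (max (N + 1) (k + 1)), (N.choose i : ℝ) * G (u0 + k * h - i * h) := by
      apply sum_subset (range_mono (le_max_right _ _))
      intro i _ hi
      rw [mem_range, not_lt] at hi
      have hi' : (k : ℝ) + 1 ≤ i := by exact_mod_cast hi
      rw [hG0 _ (Or.inl (by have := hu0.2; nlinarith)), mul_zero]
    rw [e1, e2]
  have h2 : ∑ j ∈ range (d + 1), bw N k j * G (u0 + j * h) =
      ∑ j ∈ range (k + 1), bw N k j * G (u0 + j * h) := by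
    have e1 : ∑ j ∈ range (d + 1), bw N k j * G (u0 + j * h) =
        ∑ j ∈ range (max (d + 1) (k + 1)), bw N k j * G (u0 + j * h) := by
      apply sum_subset (range_mono (le_max_left _ _))
      intro j _ hj
      rw [mem_range, not_lt] at hj
      have hj' : (d : ℝ) + 1 ≤ j := by exact_mod_cast hj
      rw [hG0 _ (Or.inr (by have := hu0.1; nlinarith)), mul_zero]
    have e2 : ∑ j ∈ range (k + 1), bw N k j * G (u0 + j * h) =
        ∑ j ∈ range (max (d + 1) (k + 1)), bw N k j * G (u0 + j * h) := by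
      apply sum_subset (range_mono (le_max_right _ _))
      intro j _ hj
      rw [mem_range, not_lt] at hj
      unfold bw
      rw [if_neg (by omega), zero_mul]
    rw [e1, e2]
  rw [h1, h2, ← sum_range_reflect]
  refine sum_congr rfl fun j hj => ?_
  have hjk : j ≤ k := by have := mem_range.1 hj; omega
  have e1 : k + 1 - 1 - j = k - j := by omega
  unfold bw
  rw [if_pos hjk, e1, Nat.cast_sub hjk]
  congr 2
  ring

theorem thmB (G : ℝ → ℝ) (hG : Continuous G) (a b η c : ℝ) (hη : 0 < η) (hc : 0 < c)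
    (hab : a + 3 * η ≤ b - 3 * η) (hG0 : ∀ u, u ≤ a ∨ b ≤ u → G u = 0)
    (hL0 : ∀ u, u ≤ a + 3 * η → 0 ≤ G u) (hL1 : ∀ u ∈ Set.Icc (a + η) (a + 2 * η), c ≤ G u)
    (hR0 : ∀ u, b - 3 * η ≤ u → 0 ≤ G u) (hR1 : ∀ u ∈ Set.Icc (b - 2 * η) (b - η), c ≤ G u)
    (hI : ∀ r : ℝ, 0 < ∫ u in a..b, G u * Real.exp (r * u)) :
    ∃ (h : ℝ) (N : ℕ), 0 < h ∧
      ∀ u, 0 ≤ ∑ i ∈ range (N + 1), (N.choose i : ℝ) * G (u - i * h) := by
  obtain ⟨d, h, hh, hdh, h2h, hpos⟩ := step1 G hG a b η c hη hc hab hG0 hL0 hL1 hR0 hR1 hI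
  obtain ⟨B, hB0, hB⟩ : ∃ B : ℝ, 0 ≤ B ∧ ∀ u, |G u| ≤ B := by
    obtain ⟨B, hB⟩ := (isCompact_Icc (a := a) (b := b)).exists_bound_of_continuousOn
      hG.continuousOn
    refine ⟨max B 0, le_max_right _ _, fun u => ?_⟩
    by_cases hu : u ∈ Set.Icc a b
    · exact (hB u hu).trans (le_max_left _ _)
    · have : u ≤ a ∨ b ≤ u := by
        by_contra hcon
        push Not at hcon
        exact hu ⟨hcon.1.le, hcon.2.le⟩
      rw [hG0 u this, abs_zero]
      exact le_max_right _ _
  set J := ⌈η / h⌉₊ with hJ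
  have hJ1 : η / h ≤ J := Nat.le_ceil _
  have hJ2 : (J : ℝ) < η / h + 1 := Nat.ceil_lt_add_one (by positivity)
  rw [div_le_iff₀ hh] at hJ1
  have hJ2' : (J : ℝ) * h < η + h := by
    have := mul_lt_mul_of_pos_right hJ2 hh
    rwa [add_mul, div_mul_cancel₀ _ hh.ne', one_mul] at this
  have hJd : J + 1 ≤ d := by
    have h1 : ((J + 1 : ℕ) : ℝ) * h ≤ d * h := by push_cast; nlinarith
    exact_mod_cast le_of_mul_le_mul_right h1 hh
  set Q : Set (ℕ → ℝ) := {q | ∃ u0 ∈ Set.Icc a (a + h), q = fun j : ℕ => G (u0 + j * h)} with hQ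
  have hjh : ∀ j : ℕ, 0 ≤ (j : ℝ) * h := fun j => by positivity
  obtain ⟨N, hN⟩ := polya d J J (J + 1) (J + 1) B c hc hB0 le_rfl (by omega) le_rfl hJd Q
    (by rintro q ⟨u0, hu0, rfl⟩ j; exact hB _)
    (by
      rintro q ⟨u0, hu0, rfl⟩ j hj
      apply hL0
      have h1 : (j : ℝ) * h ≤ J * h := mul_le_mul_of_nonneg_right (by exact_mod_cast hj) hh.le
      have := hu0.2
      linarith)
    (by
      rintro q ⟨u0, hu0, rfl⟩
      apply hL1
      constructor
      · have := hu0.1; linarith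
      · have := hu0.2; linarith)
    (by
      rintro q ⟨u0, hu0, rfl⟩ j hj
      apply hR0
      have hjd : j ≤ d := by omega
      have h1 : (j : ℝ) * h ≤ ((J + 1 : ℕ) : ℝ) * h :=
        mul_le_mul_of_nonneg_right (by exact_mod_cast hj) hh.le
      have h2 : ((d - j : ℕ) : ℝ) * h = b - a - j * h := by
        rw [Nat.cast_sub hjd, sub_mul, hdh]
      push_cast at h1
      rw [h2]
      have := hu0.1
      linarith)
    (by
      rintro q ⟨u0, hu0, rfl⟩
      apply hR1
      have h2 : ((d - (J + 1) : ℕ) : ℝ) * h = b - a - (J + 1) * h := by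
        rw [Nat.cast_sub hJd, sub_mul, hdh]
        push_cast
        ring
      rw [h2]
      constructor
      · have := hu0.1; linarith
      · have := hu0.2; linarith)
    (by
      intro t0 t1 ht0
      rcases lt_or_ge t1 t0 with h01 | h01
      · exact ⟨1, one_pos, fun q _ t ht => absurd (ht.1.trans ht.2) (not_le.2 h01)⟩
      have hK : IsCompact (Set.Icc a (a + h) ×ˢ Set.Icc t0 t1) :=
        isCompact_Icc.prod isCompact_Icc
      have hcont : Continuous (fun p : ℝ × ℝ =>
          ∑ j ∈ range (d + 1), G (p.1 + j * h) * p.2 ^ j) := by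
        apply continuous_finsetSum
        intro j _
        fun_prop
      obtain ⟨p, hp, hpm⟩ := hK.exists_isMinOn
        ⟨(a, t0), ⟨⟨le_rfl, by linarith⟩, ⟨le_rfl, h01⟩⟩⟩ hcont.continuousOn
      refine ⟨∑ j ∈ range (d + 1), G (p.1 + j * h) * p.2 ^ j, ?_, ?_⟩
      · have hp2 : 0 < p.2 := lt_of_lt_of_le ht0 hp.2.1
        have h1 := hpos (Real.log p.2 / h) p.1 hp.1
        have h2 : ∑ j ∈ range (d + 1), G (p.1 + j * h) *
            Real.exp (Real.log p.2 / h * (p.1 + j * h)) =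
            Real.exp (Real.log p.2 / h * p.1) *
              ∑ j ∈ range (d + 1), G (p.1 + j * h) * p.2 ^ j := by
          rw [mul_sum]
          refine sum_congr rfl fun j _ => ?_
          have h3 : Real.exp (Real.log p.2 / h * (p.1 + j * h)) =
              Real.exp (Real.log p.2 / h * p.1) * p.2 ^ j := by
            rw [mul_add, Real.exp_add]
            congr 1
            have : Real.log p.2 / h * (j * h) = j * Real.log p.2 := by field_simp
            rw [this, Real.exp_nat_mul, Real.exp_log hp2]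
          rw [h3]
          ring
        rw [h2] at h1
        exact (mul_pos_iff_of_pos_left (Real.exp_pos _)).1 h1
      · rintro q ⟨u0, hu0, rfl⟩ t ht
        exact hpm (Set.mk_mem_prod hu0 ht))
  refine ⟨h, N, hh, fun u => ?_⟩
  rcases lt_or_ge u a with hu | hu
  · apply le_of_eq
    symm
    apply sum_eq_zero
    intro i _
    rw [hG0 _ (Or.inl (by have := hjh i; linarith)), mul_zero]
  set k := ⌊(u - a) / h⌋₊ with hk
  have hk1 : (k : ℝ) ≤ (u - a) / h := Nat.floor_le (div_nonneg (by linarith) hh.le)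
  have hk2 : (u - a) / h < k + 1 := Nat.lt_floor_add_one _
  rw [le_div_iff₀ hh] at hk1
  rw [div_lt_iff₀ hh] at hk2
  have hu0 : u - k * h ∈ Set.Icc a (a + h) := ⟨by linarith, by linarith⟩
  have h1 := hN (fun j : ℕ => G (u - k * h + j * h)) ⟨u - k * h, hu0, rfl⟩ k
  rw [← binom_conv G a b h d N hh hdh hG0 k (u - k * h) hu0] at h1
  simpa using h1

end Pool.Agent.Q223.FC
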