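import Mathlib
import Pool.Agent.Q223.FC.G5

/-!
# Binomial smoothing of the difference function: unequal ranks
-/

set_option autoImplicit false

namespace Pool.Agent.Q223.FC

open Finset MeasureTheory Filter Topology

/-- the ramp -/
noncomputable def ramp (A u : ℝ) : ℝ := max 0 (min 1 (u - A))

theorem ramp_nonneg (A u : ℝ) : 0 ≤ ramp A u := le_max_left _ _

theorem ramp_le_one (A u : ℝ) : ramp A u ≤ 1 := max_le zero_le_one (min_le_left _ _)

theorem ramp_one (A u : ℝ) (h : A + 1 ≤ u) : ramp A u = 1 := by
  unfold ramp
  rw [min_eq_left (by linarith), max_eq_right zero_le_one]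

theorem ramp_zero (A u : ℝ) (h : u ≤ A) : ramp A u = 0 := by
  unfold ramp
  rw [max_eq_left]
  exact (min_le_right _ _).trans (by linarith)

theorem ramp_cont (A : ℝ) : Continuous (ramp A) := by
  unfold ramp
  fun_prop

section

variable (V : Finset ℝ) (ν : ℝ → ℝ) (hne : V.Nonempty) (hV : ∀ t ∈ V, 0 < t)
  (hsum : ∑ t ∈ V, ν t * t = 0) (hint : ∀ t ∈ V, ν t ≤ -1 ∨ 1 ≤ ν t)

include hne hV hsum hint in
/-- unequal ranks -/
theorem bin1 (ρ : ℝ) (hρ : ∑ t ∈ V, ν t = -ρ) (hρ1 : 1 ≤ ρ)
    (hpos : ∀ r : ℝ, 0 < r → r ≠ 1 → 0 < (∑ t ∈ V, ν t * t ^ r) / (r * (r - 1)))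
    (h1 : 0 < ∑ t ∈ V, ν t * (t * Real.log t)) :
    ∃ (h : ℝ) (N : ℕ), 0 < h ∧
      ∀ u, 0 ≤ ∑ i ∈ range (N + 1), (N.choose i : ℝ) * EE V ν (u - i * h) := by
  have hlt := min_lt_max V ν hne hV hsum hint
  have hpow : ∀ k : ℕ, 2 ≤ k → 0 < ∑ t ∈ V, ν t * t ^ k := by
    intro k hk
    have hk2 : (2 : ℝ) ≤ k := by exact_mod_cast hk
    have h2 := hpos k (by positivity) (by linarith)
    have h3 : (0 : ℝ) < k * (k - 1) := by nlinarith
    have h4 := (div_pos_iff_of_pos_right h3).1 h2
    simpa only [Real.rpow_natCast] using h4
  have hn1 := nu_max V ν hne hV hint hpow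
  obtain ⟨η, hη, hη2, hηr, hηl, hηm⟩ := exists_eta V hne hV hlt
  set t1 := V.max' hne with ht1
  set t0 := V.min' hne with ht0
  set a := Real.log t0 with ha
  set b := Real.log t1 with hb
  have ht1V : t1 ∈ V := V.max'_mem hne
  have ht1p : 0 < t1 := hV t1 ht1V
  have hab' : a < b := Real.log_lt_log (hV _ (V.min'_mem hne)) hlt
  have hab : ∀ t ∈ V, a ≤ Real.log t ∧ Real.log t ≤ b := fun t ht =>
    ⟨Real.log_le_log (hV _ (V.min'_mem hne)) (V.min'_le t ht),
      Real.log_le_log (hV t ht) (V.le_max' t ht)⟩
  obtain ⟨hc, hc1, hc2⟩ := edge_const hη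
  have hright := EE_right V ν t1 b η ht1V hb hηr
  have hleft := EE_left V ν hV hsum ρ hρ t0 a η (V.min'_mem hne) ha hηl
  have hleft' : ∀ u, u ≤ a → EE V ν u = ρ := by
    intro u hu
    rw [hleft u (by linarith), max_eq_right]
    · ring
    · have := Real.one_le_exp (show 0 ≤ a - u by linarith)
      linarith
  have hEc := EE_cont V ν
  -- a bound for the integral over `[a, b]`
  obtain ⟨B, hB⟩ := (isCompact_Icc (a := a) (b := b)).exists_bound_of_continuousOn
      hEc.continuousOn
  have hB0 : 0 ≤ B := (norm_nonneg _).trans (hB a ⟨le_rfl, hab'.le⟩)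
  set H : ℝ → ℝ := fun r => ∫ u in a..b, EE V ν u * Real.exp (r * u) with hH
  have hHc : Continuous H := by
    rw [hH]
    apply intervalIntegral.continuous_parametric_intervalIntegral_of_continuous'
    unfold Function.uncurry
    fun_prop
  set M : ℝ := B * (b - a) + 1 with hM
  have hM1 : 1 ≤ M := by
    have : 0 ≤ B * (b - a) := mul_nonneg hB0 (by linarith)
    linarith
  have hHbound : ∀ r X : ℝ, (∀ u ∈ Set.Icc a b, Real.exp (r * u) ≤ X) → -(B * (b - a) * X) ≤ H r := by
    intro r X hX
    have h2 := intervalIntegral.norm_integral_le_of_norm_le_const (a := a) (b := b) (C := B * X)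
      (f := fun u => EE V ν u * Real.exp (r * u)) (fun u hu => by
        rw [Set.uIoc_of_le hab'.le] at hu
        have hu' : u ∈ Set.Icc a b := ⟨hu.1.le, hu.2⟩
        rw [norm_mul, Real.norm_eq_abs (Real.exp _), abs_of_pos (Real.exp_pos _)]
        exact mul_le_mul (hB u hu') (hX u hu') (Real.exp_pos _).le hB0)
    rw [Real.norm_eq_abs, abs_of_pos (show 0 < b - a by linarith)] at h2
    have h3 := (abs_le.1 h2).1
    have h4 : B * X * (b - a) = B * (b - a) * X := by ring
    rw [h4] at h3
    exact h3
  -- the full transform for `r > 0`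
  have hW : ∀ r : ℝ, 0 < r → 0 < H r + ρ * Real.exp (r * a) / r := by
    intro r hr
    by_cases hr1 : r = 1
    · rw [hr1]
      have := EE_int_one V ν hV hsum ρ hρ a b hab
      simp only [hH]
      rw [this, one_mul]
      linarith
    · have := EE_int V ν hV hsum ρ hρ a b r hab hr.ne' hr1
      simp only [hH]
      rw [this]
      have h2 := hpos r hr hr1
      linarith
  -- small and large exponents
  set r1 : ℝ := 1 / (2 * (b - a + 2 * M)) with hr1
  have hr1p : 0 < r1 := by
    rw [hr1]
    have : 0 < b - a := by linarith
    positivity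
  obtain ⟨R, hR⟩ : ∃ R : ℝ, ∀ r, R ≤ r → 1 / 2 < ∑ t ∈ V, ν t * (t / t1) ^ r := by
    have hlim : Tendsto (fun r : ℝ => ∑ t ∈ V, ν t * (t / t1) ^ r) atTop
        (𝓝 (∑ t ∈ V, if t = t1 then ν t1 else 0)) := by
      apply tendsto_finsetSum
      intro t ht
      by_cases htt : t = t1
      · rw [if_pos htt, htt, div_self ht1p.ne']
        simp only [Real.one_rpow, mul_one]
        exact tendsto_const_nhds
      · rw [if_neg htt]
        have h2 : 0 ≤ t / t1 := div_nonneg (hV t ht).le ht1p.le
        have h3 : t / t1 < 1 := (div_lt_one ht1p).2 (lt_of_le_of_ne (V.le_max' t ht) htt)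
        have := (tendsto_rpow_atTop_of_base_lt_one (t / t1) (by linarith) h3).const_mul (ν t)
        rwa [mul_zero] at this
    rw [sum_ite_eq' V t1, if_pos ht1V] at hlim
    have := hlim.eventually (lt_mem_nhds (show (1 : ℝ) / 2 < ν t1 by linarith))
    obtain ⟨R, hR⟩ := eventually_atTop.1 this
    exact ⟨R, hR⟩
  set R' : ℝ := max (max R 2) r1 with hR'
  have hR'R : R ≤ R' := (le_max_left _ _).trans (le_max_left _ _)
  have hR'2 : 2 ≤ R' := (le_max_right R 2).trans (le_max_left _ _)
  have hR'r : r1 ≤ R' := le_max_right _ _
  obtain ⟨w0, hw0, hw⟩ : ∃ w0 : ℝ, 0 < w0 ∧ ∀ r ∈ Set.Icc r1 R',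
      w0 ≤ H r + ρ * Real.exp (r * a) / r := by
    have hcont : ContinuousOn (fun r => H r + ρ * Real.exp (r * a) / r) (Set.Icc r1 R') := by
      apply ContinuousOn.add hHc.continuousOn
      apply ContinuousOn.div
      · fun_prop
      · fun_prop
      · intro r hr
        exact (lt_of_lt_of_le hr1p hr.1).ne'
    obtain ⟨r0, hr0, hr0m⟩ := (isCompact_Icc (a := r1) (b := R')).exists_isMinOn
      ⟨r1, le_rfl, hR'r⟩ hcont
    exact ⟨_, hW r0 (lt_of_lt_of_le hr1p hr0.1), fun r hr => hr0m hr⟩
  -- the left end
  set A1 : ℝ := min (min (a - 2 * M) (Real.log (w0 * r1 / (2 * ρ)) / r1)) (min (b - 2 * ρ) 0)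
    with hA1
  have hA1a : A1 ≤ a - 2 * M := (min_le_left _ _).trans (min_le_left _ _)
  have hA1l : A1 ≤ Real.log (w0 * r1 / (2 * ρ)) / r1 := (min_le_left _ _).trans (min_le_right _ _)
  have hA1b : A1 ≤ b - 2 * ρ := (min_le_right _ _).trans (min_le_left _ _)
  have hA10 : A1 ≤ 0 := (min_le_right _ _).trans (min_le_right _ _)
  have hA1w : ρ * Real.exp (r1 * A1) / r1 ≤ w0 / 2 := by
    have h2 : r1 * A1 ≤ Real.log (w0 * r1 / (2 * ρ)) := by
      rw [le_div_iff₀ hr1p] at hA1l
      linarith
    have h3 : Real.exp (r1 * A1) ≤ w0 * r1 / (2 * ρ) := by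
      rw [← Real.exp_log (show 0 < w0 * r1 / (2 * ρ) by positivity)]
      exact Real.exp_le_exp.2 h2
    rw [div_le_iff₀ hr1p]
    calc ρ * Real.exp (r1 * A1) ≤ ρ * (w0 * r1 / (2 * ρ)) :=
          mul_le_mul_of_nonneg_left h3 (by linarith)
      _ = w0 / 2 * r1 := by field_simp
  set A : ℝ := A1 - 1 with hA
  set G : ℝ → ℝ := fun u => EE V ν u * ramp A u with hG
  have hGc : Continuous G := hEc.mul (ramp_cont A)
  have hρ0 : 0 < ρ := by linarith
  have hGle : ∀ u, G u ≤ EE V ν u := by
    intro u
    rcases le_total u a with hu | hu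
    · simp only [hG]
      rw [hleft' u hu]
      have := ramp_le_one A u
      nlinarith
    · simp only [hG]
      rw [ramp_one A u (by linarith), mul_one]
  have key : ∃ (h : ℝ) (N : ℕ), 0 < h ∧
      ∀ u, 0 ≤ ∑ i ∈ range (N + 1), (N.choose i : ℝ) * G (u - i * h) := by
    refine thmB G hGc A b η (1 - Real.exp (-η)) hη hc (by linarith) ?_ ?_ ?_ ?_ ?_ ?_
    · rintro u (hu | hu)
      · simp only [hG]
        rw [ramp_zero A u hu, mul_zero]
      · simp only [hG]
        rw [hright u (by linarith), max_eq_right]
        · ring
        · have := Real.exp_le_one_iff.2 (show b - u ≤ 0 by linarith)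
          linarith
    · intro u hu
      simp only [hG]
      rw [hleft' u (by linarith)]
      exact mul_nonneg hρ0.le (ramp_nonneg _ _)
    · intro u hu
      simp only [hG]
      rw [hleft' u (by linarith [hu.2])]
      have h2 : η ≤ ramp A u := le_max_of_le_right (le_min (by linarith) (by linarith [hu.1]))
      nlinarith
    · intro u hu
      simp only [hG]
      rw [ramp_one A u (by linarith), mul_one, hright u hu]
      exact mul_nonneg (by linarith) (le_max_right _ _)
    · intro u hu
      simp only [hG]
      rw [ramp_one A u (by linarith [hu.1]), mul_one, hright u (by linarith [hu.1])]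
      have h2 : Real.exp η ≤ Real.exp (b - u) := Real.exp_le_exp.2 (by linarith [hu.2])
      have h3 : 1 - Real.exp (-η) ≤ max (Real.exp (b - u) - 1) 0 :=
        le_max_of_le_left (by linarith)
      nlinarith
    · intro r
      -- splitting
      have hGe : Continuous fun u => G u * Real.exp (r * u) := by fun_prop
      have hlow : ρ * (∫ u in A1..a, Real.exp (r * u)) + H r ≤
          ∫ u in A..b, G u * Real.exp (r * u) := by
        rw [← intervalIntegral.integral_add_adjacent_intervals
          (hGe.intervalIntegrable A A1) (hGe.intervalIntegrable A1 b),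
          ← intervalIntegral.integral_add_adjacent_intervals
          (hGe.intervalIntegrable A1 a) (hGe.intervalIntegrable a b)]
        have e1 : 0 ≤ ∫ u in A..A1, G u * Real.exp (r * u) := by
          apply intervalIntegral.integral_nonneg (by linarith)
          intro u hu
          simp only [hG]
          rw [hleft' u (by linarith [hu.2])]
          exact mul_nonneg (mul_nonneg hρ0.le (ramp_nonneg _ _)) (Real.exp_pos _).le
        have e2 : ∫ u in A1..a, G u * Real.exp (r * u) =
            ρ * ∫ u in A1..a, Real.exp (r * u) := by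
          rw [← intervalIntegral.integral_const_mul]
          apply intervalIntegral.integral_congr
          intro u hu
          rw [Set.uIcc_of_le (by linarith)] at hu
          simp only [hG]
          rw [hleft' u hu.2, ramp_one A u (by linarith [hu.1]), mul_one]
        have e3 : ∫ u in a..b, G u * Real.exp (r * u) = H r := by
          apply intervalIntegral.integral_congr
          intro u hu
          rw [Set.uIcc_of_le hab'.le] at hu
          simp only [hG]
          rw [ramp_one A u (by linarith [hu.1]), mul_one]
        rw [e2, e3]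
        linarith
      refine lt_of_lt_of_le ?_ hlow
      have hexpc : Continuous fun u => Real.exp (r * u) := by fun_prop
      rcases le_or_gt r 0 with hr | hr
      · -- `r ≤ 0`
        have h2 : (a - A1) * Real.exp (r * a) ≤ ∫ u in A1..a, Real.exp (r * u) := by
          have h3 : ∫ _u in A1..a, Real.exp (r * a) = (a - A1) * Real.exp (r * a) := by
            rw [intervalIntegral.integral_const, smul_eq_mul]
          rw [← h3]
          apply intervalIntegral.integral_mono_on (by linarith) (by simp)
            (hexpc.intervalIntegrable _ _)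
          intro u hu
          apply Real.exp_le_exp.2
          have := hu.2
          nlinarith
        have h4 := hHbound r (Real.exp (r * a)) (fun u hu => by
          apply Real.exp_le_exp.2
          have := hu.1
          nlinarith)
        have hE := Real.exp_pos (r * a)
        have h5 : (a - A1) * Real.exp (r * a) ≤ ρ * ∫ u in A1..a, Real.exp (r * u) := by
          have h6 : 0 ≤ ∫ u in A1..a, Real.exp (r * u) :=
            le_trans (mul_nonneg (by linarith) hE.le) h2
          nlinarith
        have h7 : B * (b - a) * Real.exp (r * a) < (a - A1) * Real.exp (r * a) := by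
          apply mul_lt_mul_of_pos_right _ hE
          linarith
        linarith
      rcases le_or_gt r r1 with hrr | hrr
      · -- `0 < r ≤ r1`
        have h2 : 2 * M * Real.exp (r * (a - 2 * M)) ≤ ∫ u in A1..a, Real.exp (r * u) := by
          rw [← intervalIntegral.integral_add_adjacent_intervals
            (hexpc.intervalIntegrable A1 (a - 2 * M)) (hexpc.intervalIntegrable (a - 2 * M) a)]
          have e1 : 0 ≤ ∫ u in A1..(a - 2 * M), Real.exp (r * u) :=
            intervalIntegral.integral_nonneg hA1a fun u _ => (Real.exp_pos _).le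
          have h3 : ∫ _u in (a - 2 * M)..a, Real.exp (r * (a - 2 * M)) =
              2 * M * Real.exp (r * (a - 2 * M)) := by
            rw [intervalIntegral.integral_const, smul_eq_mul]
            ring
          have e2 : ∫ _u in (a - 2 * M)..a, Real.exp (r * (a - 2 * M)) ≤
              ∫ u in (a - 2 * M)..a, Real.exp (r * u) := by
            apply intervalIntegral.integral_mono_on (by linarith) (by simp)
              (hexpc.intervalIntegrable _ _)
            intro u hu
            apply Real.exp_le_exp.2
            have := hu.1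
            nlinarith
          linarith
        have h4 := hHbound r (Real.exp (r * b)) (fun u hu => by
          apply Real.exp_le_exp.2
          have := hu.2
          nlinarith)
        have hEb := Real.exp_pos (r * b)
        -- `exp (r b) < 2 exp (r (a - 2M))`
        have h5 : Real.exp (r * b) < 2 * Real.exp (r * (a - 2 * M)) := by
          have h6 : Real.exp (r * b) = Real.exp (r * (b - a + 2 * M)) *
              Real.exp (r * (a - 2 * M)) := by
            rw [← Real.exp_add]; congr 1; ring
          have h7 : r * (b - a + 2 * M) ≤ 1 / 2 := by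
            have h8 : r * (b - a + 2 * M) ≤ r1 * (b - a + 2 * M) :=
              mul_le_mul_of_nonneg_right hrr (by linarith)
            have h9 : r1 * (b - a + 2 * M) = 1 / 2 := by
              have : b - a + 2 * M ≠ 0 := by
                have : 0 < b - a + 2 * M := by linarith
                exact this.ne'
              rw [hr1]; field_simp
            linarith
          have h8 : Real.exp (r * (b - a + 2 * M)) < 2 := by
            have h9 : Real.exp (r * (b - a + 2 * M)) ≤ Real.exp (1 / 2) := Real.exp_le_exp.2 h7
            have h10 : Real.exp (1 / 2) < Real.exp (Real.log 2) := by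
              apply Real.exp_lt_exp.2
              have := Real.log_two_gt_d9
              linarith
            rw [Real.exp_log (by norm_num)] at h10
            linarith
          rw [h6]
          exact mul_lt_mul_of_pos_right h8 (Real.exp_pos _)
        have h6 : M * Real.exp (r * b) < ρ * ∫ u in A1..a, Real.exp (r * u) := by
          have h7 : M * Real.exp (r * b) < 2 * M * Real.exp (r * (a - 2 * M)) := by nlinarith
          have h8 : 0 ≤ ∫ u in A1..a, Real.exp (r * u) := by
            have : 0 < 2 * M * Real.exp (r * (a - 2 * M)) := by positivity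
            linarith
          nlinarith
        have h7 : B * (b - a) * Real.exp (r * b) ≤ M * Real.exp (r * b) :=
          mul_le_mul_of_nonneg_right (by linarith) hEb.le
        linarith
      -- `r > r1`: exact value
      have hex : ∫ u in A1..a, Real.exp (r * u) = Real.exp (r * a) / r - Real.exp (r * A1) / r := by
        have hder : ∀ u ∈ Set.uIcc A1 a, HasDerivAt (fun u => Real.exp (r * u) / r)
            (Real.exp (r * u)) u := by
          intro u _
          have h2 : HasDerivAt (fun u => Real.exp (r * u)) (Real.exp (r * u) * r) u := by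
            have := ((hasDerivAt_id u).const_mul r).exp
            simpa using this
          refine HasDerivAt.congr_deriv (h2.div_const r) ?_
          field_simp
        rw [intervalIntegral.integral_eq_sub_of_hasDerivAt hder (hexpc.intervalIntegrable _ _)]
      have htot : ρ * (∫ u in A1..a, Real.exp (r * u)) + H r =
          (H r + ρ * Real.exp (r * a) / r) - ρ * Real.exp (r * A1) / r := by
        rw [hex]; ring
      rw [htot]
      rcases le_or_gt r R' with hrR | hrR
      · have h2 := hw r ⟨hrr.le, hrR⟩
        have h3 : ρ * Real.exp (r * A1) / r ≤ ρ * Real.exp (r1 * A1) / r1 := by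
          apply div_le_div₀ (by positivity) _ hr1p hrr.le
          apply mul_le_mul_of_nonneg_left _ hρ0.le
          apply Real.exp_le_exp.2
          nlinarith
        linarith
      · have hr2 : 2 < r := by linarith
        have h2 := EE_int V ν hV hsum ρ hρ a b r hab hr.ne' (by linarith)
        have h3 : H r + ρ * Real.exp (r * a) / r = (∑ t ∈ V, ν t * t ^ r) / (r * (r - 1)) := by
          simp only [hH]
          rw [h2]
          ring
        have h4 : Real.exp (r * b) / 2 < ∑ t ∈ V, ν t * t ^ r := by
          have h5 := hR r (by linarith)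
          have h6 : ∑ t ∈ V, ν t * (t / t1) ^ r = (∑ t ∈ V, ν t * t ^ r) / t1 ^ r := by
            rw [sum_div]
            exact sum_congr rfl fun t ht => by
              rw [Real.div_rpow (hV t ht).le ht1p.le, mul_div_assoc]
          have h7 : t1 ^ r = Real.exp (r * b) := by
            rw [Real.rpow_def_of_pos ht1p, hb, mul_comm]
          rw [h6, h7, lt_div_iff₀ (Real.exp_pos _)] at h5
          linarith
        have hrr1 : 0 < r * (r - 1) := by nlinarith
        have h5 : ρ * Real.exp (r * A1) / r = (ρ * (r - 1) * Real.exp (r * A1)) / (r * (r - 1)) := by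
          have : r - 1 ≠ 0 := by linarith
          field_simp
        rw [h3, h5, ← sub_div]
        apply div_pos _ hrr1
        have h6 : Real.exp (r * b) = Real.exp (r * (b - A1)) * Real.exp (r * A1) := by
          rw [← Real.exp_add]; congr 1; ring
        have h7 := Real.add_one_le_exp (r * (b - A1))
        have h8 : r * (2 * ρ) ≤ r * (b - A1) := mul_le_mul_of_nonneg_left (by linarith) hr.le
        have h9 : 2 * (ρ * (r - 1)) ≤ Real.exp (r * (b - A1)) := by nlinarith
        have h10 := mul_le_mul_of_nonneg_right h9 (Real.exp_pos (r * A1)).le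
        rw [← h6] at h10
        linarith
  obtain ⟨h, N, hh, hN⟩ := key
  refine ⟨h, N, hh, fun u => (hN u).trans ?_⟩
  exact sum_le_sum fun i _ => mul_le_mul_of_nonneg_left (hGle _) (Nat.cast_nonneg _)

end

end Pool.Agent.Q223.FC
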